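import Pool.Agent.H13.LN.Targets

/-! Board `lnt_modules`, row GAU (helper70): the chord diagram of a singular knot. -/

set_option autoImplicit false

open Finset

namespace Pool.Agent.H70.LNT

open Pool.Agent.H59.LIN Pool.Agent.H13.LN

theorem meets_flt {n : ℕ} (w : SWd n) : ∀ (k : ℕ) (p : Fin (n + 1)),
    meets k w p = meets k (lft (flt w)) p := by
  induction w with
  | nil => intro k p; rfl
  | cons x w ih =>
    obtain ⟨i, s⟩ := x
    intro k p
    show (if s = none ∧ (p = i.castSucc ∨ p = i.succ) then [k] else []) ++
        meets (k + 1) w (tr i p) =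
      (if (if s.isNone then (none : Option Bool) else some true) = none ∧
        (p = i.castSucc ∨ p = i.succ) then [k] else []) ++
        meets (k + 1) (lft (flt w)) (tr i p)
    rw [ih]
    congr 1
    cases s with
    | none => rfl
    | some b => simp

theorem meets_ev (hEVA : T_EVA) {n : ℕ} (w : SWd n) : ∀ (k m : ℕ), m ≤ k →
    ∃ θ : ℕ → ℕ, StrictMono θ ∧ (∀ x, m ≤ x → k ≤ θ x) ∧
      ∀ p : Fin (n + 1), meets k w p = (ev m (flt w) p).map θ := by
  induction w with
  | nil =>
    intro k m hmk
    refine ⟨fun x => x + (k - m), ?_, ?_, ?_⟩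
    · intro x y hxy
      show x + (k - m) < y + (k - m)
      omega
    · intro x hx
      show k ≤ x + (k - m)
      omega
    · intro p
      rfl
  | cons x w ih =>
    obtain ⟨i, s⟩ := x
    intro k m hmk
    cases s with
    | some b =>
      obtain ⟨θ, h1, h2, h3⟩ := ih (k + 1) m (by omega)
      refine ⟨θ, h1, fun x hx => by have := h2 x hx; omega, fun p => ?_⟩
      show (if (some b : Option Bool) = none ∧ (p = i.castSucc ∨ p = i.succ) then [k] else []) ++
        meets (k + 1) w (tr i p) = ((if false = true ∧ (p = i.castSucc ∨ p = i.succ) then [m]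
          else []) ++ ev (if false then m + 1 else m) (flt w) (tr i p)).map θ
      rw [h3]
      simp
    | none =>
      obtain ⟨θ, h1, h2, h3⟩ := ih (k + 1) (m + 1) (by omega)
      refine ⟨fun x => if x ≤ m then x + (k - m) else θ x, ?_, ?_, fun p => ?_⟩
      · intro x y hxy
        show (if x ≤ m then x + (k - m) else θ x) < (if y ≤ m then y + (k - m) else θ y)
        split_ifs with ha hb hb
        · omega
        · have := h2 y (by omega)
          omega
        · omega
        · exact h1 hxy
      · intro x hx
        show k ≤ (if x ≤ m then x + (k - m) else θ x)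
        split_ifs with ha
        · omega
        · have := h2 x (by omega)
          omega
      · show (if (none : Option Bool) = none ∧ (p = i.castSucc ∨ p = i.succ) then [k] else []) ++
          meets (k + 1) w (tr i p) = ((if true = true ∧ (p = i.castSucc ∨ p = i.succ) then [m]
            else []) ++ ev (if true then m + 1 else m) (flt w) (tr i p)).map _
        rw [h3, List.map_append]
        congr 1
        · by_cases hp : p = i.castSucc ∨ p = i.succ
          · rw [if_pos ⟨rfl, hp⟩, if_pos ⟨rfl, hp⟩, List.map_singleton, if_pos le_rfl]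
            congr 1
            omega
          · rw [if_neg fun h => hp h.2, if_neg fun h => hp h.2]
            rfl
        · rw [if_pos rfl]
          apply List.map_congr_left
          intro x hx
          have h4 := ((hEVA.2.2 n (m + 1) (flt w) (tr i p)).2 x hx).1
          rw [if_neg (by omega)]

theorem length_of_count (d : ℕ) (l : List ℕ) (h : ∀ k, l.count k = if k < d then 2 else 0) :
    l.length = 2 * d := by
  have h1 : l.toFinset = Finset.range d := by
    ext k
    rw [List.mem_toFinset, Finset.mem_range, ← List.count_pos_iff, h]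
    split_ifs with hk
    · simp [hk]
    · simp [hk]
  have h2 := List.sum_toFinset_count_eq_length l
  rw [h1] at h2
  rw [← h2, Finset.sum_congr rfl (g := fun _ => 2) ?_, Finset.sum_const, Finset.card_range,
    smul_eq_mul, mul_comm]
  intro k hk
  rw [Finset.mem_range] at hk
  rw [h, if_pos hk]

/-- **GAU** -/
theorem gau (hRUN : T_RUN) (hEVA : T_EVA) (hBLV : T_BLV) : T_GAU := by
  intro n w hK
  obtain ⟨-, -, -, -, hK2, -, -, hlft, hflt⟩ := hRUN
  have hr1 : run (flt w) = run w := (hflt n w).1
  have hr2 : run (lft (flt w)) = run w := by rw [(hlft n (flt w)).1, hr1]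
  have hKf : Knot (flt w) := hK2 n _ _ w (flt w) hr1.symm hK
  obtain ⟨θ, hθ, -, hθ2⟩ := meets_ev hEVA w 0 0 le_rfl
  have hgau : gauss w = (blk (flt w) 0).flatten.map θ := by
    unfold gauss blk
    rw [List.ofFn_eq_map]
    have h1 : (List.finRange (n + 1)).map (fun j : Fin (n + 1) =>
        ev 0 (flt w) ((run (flt w))^[(j : ℕ)] 0)) =
        (List.range (n + 1)).map (fun j : ℕ => ev 0 (flt w) ((run (flt w))^[j] 0)) := by
      rw [← List.map_coe_finRange_eq_range, List.map_map]
      rfl
    rw [h1, ← List.flatMap_def, List.map_flatMap]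
    congr 1
    funext j
    rw [hθ2, hr1]
  refine ⟨?_, ?_, θ, hθ, hgau⟩
  · have hV := (hBLV n (flt w) 0 hKf).1
    rw [(hflt n w).2] at hV
    refine ⟨?_, ?_⟩
    · rw [hgau, List.length_map]
      exact length_of_count _ _ hV.cnt
    · intro a ha
      rw [hgau] at ha ⊢
      rw [List.mem_map] at ha
      obtain ⟨b, hb, rfl⟩ := ha
      rw [List.count_map_of_injective _ _ hθ.injective, hV.cnt]
      have h1 : 0 < (blk (flt w) 0).flatten.count b := List.count_pos_iff.2 hb
      rw [hV.cnt] at h1
      split_ifs at h1 ⊢ with h2
      · rfl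
      · omega
  · unfold gauss
    rw [hr2]
    congr 1
    funext j
    exact meets_flt w 0 _

end Pool.Agent.H70.LNT
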